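import Pool.Agent.H685R3.Om

set_option autoImplicit false

/-!
First-order structures whose universe is a set of natural numbers, Goedel numbers of first-order
sentences, theories with a computable model, and the Turing degrees of theories.
-/

namespace Pool.Agent.Helper39K9.TD

open Encodable

/-- A countable first-order signature. The relation symbols are the `R_i` with `rel i = some k`
(then `k` is the arity of `R_i`), the function symbols are the `F_i` with `fn i = some k` (then `k`
is the arity of `F_i`; constants are function symbols of arity `0`). -/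
structure Sig where
  rel : ℕ → Option ℕ
  fn : ℕ → Option ℕ

/-- The signature is computable: its symbols and their arities are given effectively. -/
def Sig.IsComputable (L : Sig) : Prop := Computable L.rel ∧ Computable L.fn

/-- Terms: variables (de Bruijn indices), and `app f k ts`, which is the term
`F_f(ts 0, ..., ts (k - 1))`. -/
inductive Tm
  | var (i : ℕ)
  | app (f k : ℕ) (ts : Fin k → Tm)

/-- First-order formulas with equality: `rel i k ts` is `R_i(ts 0, ..., ts (k - 1))`, `eq t s` is
`t = s`. The quantifier of `ex φ` binds the variable with index `0` of `φ`. -/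
inductive Fml
  | rel (i k : ℕ) (ts : Fin k → Tm)
  | eq (t s : Tm)
  | not (φ : Fml)
  | and (φ ψ : Fml)
  | ex (φ : Fml)

/-- `t` is a term of the signature `L`, and its variables have indices `< n`. -/
def Tm.Wf (L : Sig) (n : ℕ) : Tm → Prop
  | .var i => i < n
  | .app f k ts => L.fn f = some k ∧ ∀ j, (ts j).Wf L n

/-- `φ` is a formula of the signature `L`, and its free variables have indices `< n`. -/
def Fml.Wf (L : Sig) : ℕ → Fml → Prop
  | n, .rel i k ts => L.rel i = some k ∧ ∀ j, (ts j).Wf L n
  | n, .eq t s => t.Wf L n ∧ s.Wf L n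
  | n, .not φ => φ.Wf L n
  | n, .and φ ψ => φ.Wf L n ∧ ψ.Wf L n
  | n, .ex φ => φ.Wf L (n + 1)

/-- `φ` is a sentence of the signature `L`. -/
def Fml.IsSentence (L : Sig) (φ : Fml) : Prop := φ.Wf L 0

/-- The Goedel number of a term. -/
def Tm.code : Tm → ℕ
  | .var i => Nat.pair 0 i
  | .app f _ ts => Nat.pair (f + 1) (encode (List.ofFn fun j => (ts j).code))

/-- The Goedel number of a formula. -/
def Fml.code : Fml → ℕ
  | .rel i _ ts => Nat.pair 0 (Nat.pair i (encode (List.ofFn fun j => (ts j).code)))
  | .eq t s => Nat.pair 1 (Nat.pair t.code s.code)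
  | .not φ => Nat.pair 2 φ.code
  | .and φ ψ => Nat.pair 3 (Nat.pair φ.code ψ.code)
  | .ex φ => Nat.pair 4 φ.code

/-- The data of a structure whose universe `dom` is a set of natural numbers. (Only the values of
`R i` and `F i` at lists of elements of `dom` whose length is the arity matter.) -/
structure Str where
  dom : Set ℕ
  R : ℕ → List ℕ → Prop
  F : ℕ → List ℕ → ℕ

/-- `A` is a structure of signature `L`: the universe is nonempty and closed under the
operations. -/
def Str.IsStr (L : Sig) (A : Str) : Prop :=
  A.dom.Nonempty ∧ ∀ f xs, L.fn f = some xs.length → (∀ x ∈ xs, x ∈ A.dom) → A.F f xs ∈ A.dom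

/-- The structure is computable: its universe is a computable set, and its atomic diagram is
computable (the relations and the operations are uniformly computable). -/
def Str.IsComputable (L : Sig) (A : Str) : Prop :=
  (∃ D : ℕ → Bool, Computable D ∧ ∀ x, D x = true ↔ x ∈ A.dom) ∧
  (∃ d : ℕ × List ℕ → Bool, Computable d ∧
    ∀ i xs, L.rel i = some xs.length → (∀ x ∈ xs, x ∈ A.dom) → (d (i, xs) = true ↔ A.R i xs)) ∧
  ∃ e : ℕ × List ℕ → ℕ, Computable e ∧
    ∀ i xs, L.fn i = some xs.length → (∀ x ∈ xs, x ∈ A.dom) → e (i, xs) = A.F i xs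

/-- The value of a term, the variable with index `i` denoting the `i`-th element of the list. -/
def Tm.val (A : Str) (v : List ℕ) : Tm → ℕ
  | .var i => v.getD i 0
  | .app f _ ts => A.F f (List.ofFn fun j => (ts j).val A v)

/-- Satisfaction: `Sat A φ v` says that `φ` holds in `A`, the free variable with index `i` denoting
the `i`-th element of the list `v`. -/
def Sat (A : Str) : Fml → List ℕ → Prop
  | .rel i _ ts, v => A.R i (List.ofFn fun j => (ts j).val A v)
  | .eq t s, v => t.val A v = s.val A v
  | .not φ, v => ¬ Sat A φ v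
  | .and φ ψ, v => Sat A φ v ∧ Sat A ψ v
  | .ex φ, v => ∃ a ∈ A.dom, Sat A φ (a :: v)

/-- `A` is a model of the set of sentences `T`. -/
def IsModel (A : Str) (T : Set Fml) : Prop := ∀ φ ∈ T, Sat A φ []

/-- `T` is a complete theory of signature `L`: a set of sentences of `L` which contains exactly one
of `φ` and `¬ φ` for every sentence `φ` of `L`. -/
def IsComplete (L : Sig) (T : Set Fml) : Prop :=
  (∀ φ ∈ T, φ.IsSentence L) ∧ ∀ φ : Fml, φ.IsSentence L → (φ ∉ T ↔ Fml.not φ ∈ T)

/-- The set of Goedel numbers of the sentences in `T`. -/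
def codes (T : Set Fml) : Set ℕ := {n | ∃ φ ∈ T, φ.code = n}

/-- The theory of `A`. -/
def Th (L : Sig) (A : Str) : Set Fml := {φ | φ.IsSentence L ∧ Sat A φ []}

theorem eq_Th {L : Sig} {A : Str} {T : Set Fml} (hT : IsComplete L T) (hA : IsModel A T) :
    T = Th L A := by
  ext φ
  constructor
  · intro h
    exact ⟨hT.1 φ h, hA φ h⟩
  · rintro ⟨h1, h2⟩
    by_contra h
    exact (hA _ ((hT.2 φ h1).1 h)) h2

end Pool.Agent.Helper39K9.TD
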