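import Pool.Agent.H685R3.Om

set_option autoImplicit false

/-!
The diagonalisation: there is a noncomputable set computable in the `ω`-jump of the empty set which
computes no noncomputable set that is many-one reducible to the `ω`-jump of the empty set.
-/

namespace Pool.Agent.Helper39K9.TD

open Encodable
open Nat.Partrec (Code)
open Pool.Agent.Helper227
open Pool.Agent.H685R3

/-- the `ω`-jump of the empty set -/
noncomputable abbrev Zo : ℕ → Bool := om fun _ => false

/-- Uniformization relative to a fixed oracle. -/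
theorem SI_choose {Z : ℕ → Bool} {α β : Type} [Primcodable α] [Primcodable β] [Inhabited β]
    {P : α → β → Prop} (hP : SI Z fun x : α × β => P x.1 x.2) (tot : ∀ a, ∃ b, P a b) :
    ∃ f : α → β, (SI Z fun x : α × β => f x.1 = x.2) ∧ ∀ a, P a (f a) := by
  obtain ⟨E, hE, mE, eE⟩ := hP
  have h1 : US fun B (x : α × β) => ∃ s, E (pre B s, x) := ⟨E, hE, mE, fun _ _ => Iff.rfl⟩
  obtain ⟨G, hG, G1, G2, G3⟩ := US.choose (P := fun B a b => ∃ s, E (pre B s, (a, b))) h1
  have h2 : ∀ a, ∃ b, G Z a b := fun a => G3 Z a (by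
    obtain ⟨b, hb⟩ := tot a
    exact ⟨b, (eE (a, b)).1 hb⟩)
  choose f hf using h2
  refine ⟨f, (hG.toSI Z).of_eq fun x => ?_, fun a => (eE (a, f a)).2 (G1 _ _ _ (hf a))⟩
  constructor
  · intro h
    exact G2 _ _ _ _ (hf _) h
  · intro h
    rw [← h]
    exact hf _

theorem SI_not {α : Type*} [Primcodable α] {p : α → Prop} (hp : S1 p) : SI Zo fun a => ¬ p a := by
  have h1 := (SI.of_s1 (B := fun _ => false) hp).decide_jump.2
  exact h1.trans (tLe_jn_om (fun _ => false) 1)

/-- Iteration of a function with a graph that is Sigma-one in the oracle. -/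
theorem SI_iter {Z : ℕ → Bool} {β : Type} [Primcodable β] [Inhabited β] {f : ℕ × β → β} (b0 : β)
    (hf : SI Z fun x : (ℕ × β) × β => f x.1 = x.2) (s : ℕ → β) (h0 : s 0 = b0)
    (hs : ∀ n, s (n + 1) = f (n, s n)) : SI Z fun x : ℕ × β => s x.1 = x.2 := by
  have h1 : SI Z fun x : ℕ × β => ∃ l : List β, ((l.getD 0 default = b0) ∧
      l.getD x.1 default = x.2) ∧
      ∀ i < x.1, f (i, l.getD i default) = l.getD (i + 1) default := by
    refine SI.ex (p := fun (x : ℕ × β) (l : List β) => ((l.getD 0 default = b0) ∧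
      l.getD x.1 default = x.2) ∧
      ∀ i < x.1, f (i, l.getD i default) = l.getD (i + 1) default) (SI.and ?_ ?_)
    · refine SI.of_prim (PrimrecPred.and ?_ ?_)
      · exact Primrec.eq.comp ((Primrec.list_getD default).comp Primrec.snd (Primrec.const 0))
          (Primrec.const b0)
      · exact Primrec.eq.comp ((Primrec.list_getD default).comp Primrec.snd
          (Primrec.fst.comp Primrec.fst)) (Primrec.snd.comp Primrec.fst)
    · refine SI.all_lt (α := (ℕ × β) × List β) (p := fun x i =>
        f (i, x.2.getD i default) = x.2.getD (i + 1) default) (f := fun x => x.1.1) ?_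
        (Primrec.fst.comp Primrec.fst)
      exact hf.comp (f := fun y : ((ℕ × β) × List β) × ℕ =>
        ((y.2, y.1.2.getD y.2 default), y.1.2.getD (y.2 + 1) default))
        ((Primrec.snd.pair ((Primrec.list_getD default).comp (Primrec.snd.comp Primrec.fst)
          Primrec.snd)).pair ((Primrec.list_getD default).comp (Primrec.snd.comp Primrec.fst)
            (Primrec.succ.comp Primrec.snd)))
  refine h1.of_eq fun x => ?_
  constructor
  · rintro ⟨l, ⟨h2, h3⟩, h4⟩
    have h5 : ∀ i, i ≤ x.1 → l.getD i default = s i := by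
      intro i
      induction i with
      | zero => intro _; rw [h0, h2]
      | succ i ih =>
        intro hi
        rw [hs, ← ih (by omega), h4 i (by omega)]
    rw [← h5 x.1 le_rfl, h3]
  · intro h
    have h5 : ∀ i, i ≤ x.1 → ((List.range (x.1 + 1)).map s).getD i default = s i := by
      intro i hi
      rw [List.getD_eq_getElem _ _ (by simp; omega)]
      simp
    refine ⟨(List.range (x.1 + 1)).map s, ⟨?_, ?_⟩, ?_⟩
    · rw [h5 0 (Nat.zero_le _), h0]
    · rw [h5 _ le_rfl, h]
    · intro i hi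
      rw [h5 i (by omega), h5 (i + 1) (by omega), hs]

/-- the relation defined by a program -/
def Rc (c : Code) (τ : List Bool) (n : ℕ) (b : Bool) : Prop := (c.eval (encode (τ, n, b))).Dom

theorem s1_Rc : S1 fun x : Code × List Bool × ℕ × Bool => Rc x.1 x.2.1 x.2.2.1 x.2.2.2 :=
  S1.comp (f := fun x : Code × List Bool × ℕ × Bool => (x.1, encode x.2)) s1_eval
    (Primrec.fst.pair (Primrec.encode.comp Primrec.snd))

theorem exists_Rc {E : List Bool × ℕ × Bool → Prop} (hE : S1 E) :
    ∃ c : Code, ∀ τ n b, E (τ, n, b) ↔ Rc c τ n b := by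
  have h1 : S1 fun m : ℕ => ∃ x : List Bool × ℕ × Bool, encode x = m ∧ E x := by
    refine S1.ex (S1.and (S1.of_prim ?_) (hE.comp Primrec.snd))
    exact Primrec.eq.comp (Primrec.encode.comp Primrec.snd) Primrec.fst
  obtain ⟨c, hc⟩ := Nat.Partrec.Code.exists_code.1 h1.re
  refine ⟨c, fun τ n b => ?_⟩
  unfold Rc
  rw [hc]
  cases b <;> simp [Part.assert]

/-- Splitting above `σ`. -/
def Split (x : (Code × Code) × List Bool) : Prop :=
  ∃ y : ℕ × ℕ × List Bool × List Bool, (x.2 <+: y.2.2.1 ∧ x.2 <+: y.2.2.2) ∧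
    (y.2.1 ∈ x.1.2.eval y.1 ∧ (Rc x.1.1 y.2.2.1 y.1 false ∧ Rc x.1.1 y.2.2.2 y.1 true))

theorem prim_prefix {α : Type*} [Primcodable α] {f g : α → List Bool} (hf : Primrec f)
    (hg : Primrec g) : PrimrecPred fun a => f a <+: g a := by
  have h : PrimrecPred fun a => f a = (g a).take (f a).length :=
    Primrec.eq.comp hf (Primrec.list_take.comp (Primrec.list_length.comp hf) hg)
  exact h.of_eq fun a => List.prefix_iff_eq_take.symm

theorem s1_Split : S1 Split := by
  refine S1.ex (α := (Code × Code) × List Bool) (p := fun x (y : ℕ × ℕ × List Bool × List Bool) =>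
    (x.2 <+: y.2.2.1 ∧ x.2 <+: y.2.2.2) ∧
    (y.2.1 ∈ x.1.2.eval y.1 ∧ (Rc x.1.1 y.2.2.1 y.1 false ∧ Rc x.1.1 y.2.2.2 y.1 true)))
    (S1.and (S1.of_prim ?_) (S1.and ?_ (S1.and ?_ ?_)))
  · refine PrimrecPred.and (prim_prefix ?_ ?_) (prim_prefix ?_ ?_)
    · exact Primrec.snd.comp Primrec.fst
    · exact Primrec.fst.comp (Primrec.snd.comp (Primrec.snd.comp Primrec.snd))
    · exact Primrec.snd.comp Primrec.fst
    · exact Primrec.snd.comp (Primrec.snd.comp (Primrec.snd.comp Primrec.snd))
  · exact s1_graph.comp (f := fun z : ((Code × Code) × List Bool) × ℕ × ℕ × List Bool × List Bool =>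
      ((z.1.1.2, z.2.1), z.2.2.1)) (((Primrec.snd.comp (Primrec.fst.comp Primrec.fst)).pair
        (Primrec.fst.comp Primrec.snd)).pair (Primrec.fst.comp (Primrec.snd.comp Primrec.snd)))
  · exact s1_Rc.comp (f := fun z : ((Code × Code) × List Bool) × ℕ × ℕ × List Bool × List Bool =>
      (z.1.1.1, z.2.2.2.1, z.2.1, false)) ((Primrec.fst.comp (Primrec.fst.comp Primrec.fst)).pair
        ((Primrec.fst.comp (Primrec.snd.comp (Primrec.snd.comp Primrec.snd))).pair
          ((Primrec.fst.comp Primrec.snd).pair (Primrec.const false))))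
  · exact s1_Rc.comp (f := fun z : ((Code × Code) × List Bool) × ℕ × ℕ × List Bool × List Bool =>
      (z.1.1.1, z.2.2.2.2, z.2.1, true)) ((Primrec.fst.comp (Primrec.fst.comp Primrec.fst)).pair
        ((Primrec.snd.comp (Primrec.snd.comp (Primrec.snd.comp Primrec.snd))).pair
          ((Primrec.fst.comp Primrec.snd).pair (Primrec.const true))))

/-- One step of the construction, first half. -/
def St1 (x : (Code × Code) × List Bool) (τ : List Bool) : Prop :=
  x.2 <+: τ ∧ ((∃ y : ℕ × ℕ × Bool, (y.2.1 ∈ x.1.2.eval y.1 ∧ Rc x.1.1 τ y.1 (!y.2.2)) ∧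
    Zo y.2.1 = y.2.2) ∨ ¬ Split x)

theorem si_St1 : SI Zo fun x : ((Code × Code) × List Bool) × List Bool => St1 x.1 x.2 := by
  refine SI.and (SI.of_prim (prim_prefix (Primrec.snd.comp Primrec.fst) Primrec.snd))
    (SI.or ?_ ?_)
  · refine SI.ex (p := fun (x : ((Code × Code) × List Bool) × List Bool) (y : ℕ × ℕ × Bool) =>
      (y.2.1 ∈ x.1.1.2.eval y.1 ∧ Rc x.1.1.1 x.2 y.1 (!y.2.2)) ∧ Zo y.2.1 = y.2.2)
      (SI.and (SI.of_s1 (S1.and ?_ ?_)) ?_)
    · exact s1_graph.comp (f := fun z : (((Code × Code) × List Bool) × List Bool) × ℕ × ℕ × Bool =>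
        ((z.1.1.1.2, z.2.1), z.2.2.1)) (((Primrec.snd.comp (Primrec.fst.comp (Primrec.fst.comp
          Primrec.fst))).pair (Primrec.fst.comp Primrec.snd)).pair (Primrec.fst.comp
            (Primrec.snd.comp Primrec.snd)))
    · exact s1_Rc.comp (f := fun z : (((Code × Code) × List Bool) × List Bool) × ℕ × ℕ × Bool =>
        (z.1.1.1.1, z.1.2, z.2.1, !z.2.2.2)) ((Primrec.fst.comp (Primrec.fst.comp
          (Primrec.fst.comp Primrec.fst))).pair ((Primrec.snd.comp Primrec.fst).pair
            ((Primrec.fst.comp Primrec.snd).pair (Primrec.not.comp (Primrec.snd.comp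
              (Primrec.snd.comp Primrec.snd))))))
    · exact SI.query.comp (f := fun z : (((Code × Code) × List Bool) × List Bool) × ℕ × ℕ × Bool =>
        z.2.2) (Primrec.snd.comp Primrec.snd)
  · exact (SI_not s1_Split).comp (f := fun z : ((Code × Code) × List Bool) × List Bool => z.1)
      Primrec.fst

theorem exists_St1 (x : (Code × Code) × List Bool) : ∃ τ, St1 x τ := by
  by_cases h : Split x
  · obtain ⟨y, ⟨h1, h2⟩, h3, h4, h5⟩ := h
    cases hb : Zo y.2.1 with
    | false => exact ⟨y.2.2.2, h2, Or.inl ⟨(y.1, y.2.1, false), ⟨h3, h5⟩, hb⟩⟩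
    | true => exact ⟨y.2.2.1, h1, Or.inl ⟨(y.1, y.2.1, true), ⟨h3, h4⟩, hb⟩⟩
  · exact ⟨x.2, List.prefix_rfl, Or.inr h⟩

/-- One step of the construction, second half: diagonalise against the computable sets. -/
def St2 (x : (Code × Code) × List Bool) (τ : List Bool) : Prop :=
  ∃ ρ : List Bool, St1 x ρ ∧ (((1 ∈ x.1.1.eval ρ.length) ∧ τ = ρ ++ [false]) ∨
    (¬ (1 ∈ x.1.1.eval ρ.length) ∧ τ = ρ ++ [true]))

theorem si_St2 : SI Zo fun x : ((Code × Code) × List Bool) × List Bool => St2 x.1 x.2 := by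
  have hs : S1 fun z : (((Code × Code) × List Bool) × List Bool) × List Bool =>
      1 ∈ z.1.1.1.1.eval z.2.length :=
    s1_graph.comp (f := fun z : (((Code × Code) × List Bool) × List Bool) × List Bool =>
      ((z.1.1.1.1, z.2.length), 1)) (((Primrec.fst.comp (Primrec.fst.comp (Primrec.fst.comp
        Primrec.fst))).pair (Primrec.list_length.comp Primrec.snd)).pair (Primrec.const 1))
  refine SI.ex (p := fun (x : ((Code × Code) × List Bool) × List Bool) (ρ : List Bool) =>
    St1 x.1 ρ ∧ (((1 ∈ x.1.1.1.eval ρ.length) ∧ x.2 = ρ ++ [false]) ∨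
    (¬ (1 ∈ x.1.1.1.eval ρ.length) ∧ x.2 = ρ ++ [true]))) (SI.and ?_ (SI.or (SI.and ?_ ?_)
      (SI.and ?_ ?_)))
  · exact si_St1.comp (f := fun z : (((Code × Code) × List Bool) × List Bool) × List Bool =>
      (z.1.1, z.2)) ((Primrec.fst.comp Primrec.fst).pair Primrec.snd)
  · exact SI.of_s1 hs
  · exact SI.of_prim (Primrec.eq.comp (Primrec.snd.comp Primrec.fst)
      (Primrec.list_append.comp Primrec.snd (Primrec.const [false])))
  · exact SI_not hs
  · exact SI.of_prim (Primrec.eq.comp (Primrec.snd.comp Primrec.fst)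
      (Primrec.list_append.comp Primrec.snd (Primrec.const [true])))

theorem exists_St2 (x : (Code × Code) × List Bool) : ∃ τ, St2 x τ := by
  obtain ⟨ρ, hρ⟩ := exists_St1 x
  by_cases h : 1 ∈ x.1.1.eval ρ.length
  · exact ⟨_, ρ, hρ, Or.inl ⟨h, rfl⟩⟩
  · exact ⟨_, ρ, hρ, Or.inr ⟨h, rfl⟩⟩

/-- **The diagonalisation.** -/
theorem exists_X : ∃ X : ℕ → Bool, TLe X Zo ∧ ¬ Computable X ∧
    ∀ r : ℕ → ℕ, Computable r → TLe (fun n => Zo (r n)) X → Computable fun n => Zo (r n) := by
  obtain ⟨f, hf, ef⟩ := SI_choose si_St2 exists_St2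
  let dc : ℕ → Code × Code := fun n => Denumerable.ofNat (Code × Code) n
  have hdc : Primrec dc := Primrec.ofNat (Code × Code)
  -- the sequence of strings
  let s : ℕ → List Bool := fun n => Nat.rec [] (fun n σ => f (dc n, σ)) n
  have hs0 : s 0 = [] := rfl
  have hs1 : ∀ n, s (n + 1) = f (dc n, s n) := fun n => rfl
  have hst : ∀ n, St2 (dc n, s n) (s (n + 1)) := fun n => by rw [hs1]; exact ef _
  have hgr : SI Zo fun x : ℕ × List Bool => s x.1 = x.2 := by
    refine SI_iter (f := fun y : ℕ × List Bool => f (dc y.1, y.2)) [] ?_ s hs0 hs1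
    exact hf.comp (f := fun z : (ℕ × List Bool) × List Bool => ((dc z.1.1, z.1.2), z.2))
      (((hdc.comp (Primrec.fst.comp Primrec.fst)).pair (Primrec.snd.comp Primrec.fst)).pair
        Primrec.snd)
  have hstep : ∀ n, ∃ ρ b, St1 (dc n, s n) ρ ∧ s (n + 1) = ρ ++ [b] ∧
      (b = false ↔ 1 ∈ (dc n).1.eval ρ.length) := by
    intro n
    obtain ⟨ρ, h1, h2⟩ := hst n
    rcases h2 with ⟨h3, h4⟩ | ⟨h3, h4⟩
    · exact ⟨ρ, false, h1, h4, by simpa using h3⟩
    · exact ⟨ρ, true, h1, h4, by simpa using h3⟩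
  have hpre1 : ∀ n, s n <+: s (n + 1) ∧ (s n).length < (s (n + 1)).length := by
    intro n
    obtain ⟨ρ, b, h1, h2, _⟩ := hstep n
    have h3 : s n <+: ρ := h1.1
    rw [h2]
    refine ⟨h3.trans (List.prefix_append _ _), ?_⟩
    have := h3.length_le
    simp
    omega
  have hmono : ∀ {m n}, m ≤ n → s m <+: s n := by
    intro m n h
    induction n, h using Nat.le_induction with
    | base => exact List.prefix_rfl
    | succ n _ ih => exact ih.trans (hpre1 n).1
  have hlen : ∀ n, n ≤ (s n).length := by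
    intro n
    induction n with
    | zero => exact Nat.zero_le _
    | succ n ih => exact lt_of_le_of_lt ih (hpre1 n).2
  let X : ℕ → Bool := fun n => (s (n + 1)).getD n false
  have hX : ∀ n i, i < (s n).length → (s n).getD i false = X i := by
    intro n i hi
    have h2 : i < (s (i + 1)).length := lt_of_lt_of_le (Nat.lt_succ_self i) (hlen _)
    show (s n).getD i false = (s (i + 1)).getD i false
    rw [List.getD_eq_getElem _ _ hi, List.getD_eq_getElem _ _ h2]
    rcases le_total n (i + 1) with h | h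
    · exact (hmono h).getElem hi
    · exact ((hmono h).getElem h2).symm
  have hXpre : ∀ n, pre X (s n).length = s n := by
    intro n
    refine List.ext_getElem (by simp) fun i h1 h2 => ?_
    rw [getElem_pre, ← hX n i h2, List.getD_eq_getElem _ _ h2]
  have hXp : ∀ n τ, τ <+: s n → pre X τ.length = τ := by
    intro n τ h
    have h1 := pre_eq_of_prefix (X := X) (n := (s n).length) (σ := τ) (by rw [hXpre]; exact h)
    exact h1.symm
  refine ⟨X, ?_, ?_, ?_⟩
  · -- `X` is computable in the oracle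
    rw [tLe_iff_SI]
    have h1 : SI Zo fun x : ℕ × Bool => ∃ τ : List Bool, s (x.1 + 1) = τ ∧
        τ.getD x.1 false = x.2 := by
      refine SI.ex (p := fun (x : ℕ × Bool) (τ : List Bool) => s (x.1 + 1) = τ ∧
        τ.getD x.1 false = x.2) (SI.and ?_ (SI.of_prim ?_))
      · exact hgr.comp (f := fun z : (ℕ × Bool) × List Bool => (z.1.1 + 1, z.2))
          ((Primrec.succ.comp (Primrec.fst.comp Primrec.fst)).pair Primrec.snd)
      · exact Primrec.eq.comp ((Primrec.list_getD false).comp Primrec.snd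
          (Primrec.fst.comp Primrec.fst)) (Primrec.snd.comp Primrec.fst)
    refine h1.of_eq fun x => ?_
    constructor
    · rintro ⟨τ, rfl, h⟩
      exact h
    · intro h
      exact ⟨_, rfl, h⟩
  · -- `X` is not computable
    intro hc
    have h1 : Computable fun n => (X n).toNat := (Primrec.dom_bool Bool.toNat).to_comp.comp hc
    obtain ⟨c, hc'⟩ := Code.exists_code.1 (Partrec.nat_iff.1 h1.partrec)
    obtain ⟨ρ, b, h2, h3, h4⟩ := hstep (encode (c, c))
    have h5 : dc (encode (c, c)) = (c, c) := Denumerable.ofNat_encode _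
    rw [h5] at h4
    have h6 : X ρ.length = b := by
      rw [← hX (encode (c, c) + 1) ρ.length (by rw [h3]; simp), h3]
      rw [List.getD_eq_getElem _ _ (by simp)]
      simp
    rw [hc'] at h4
    simp only [h6, PFun.coe_val, Part.mem_some_iff] at h4
    cases b <;> simp at h4
  · -- the reducible sets computable in `X`
    intro r hr hle
    obtain ⟨E, hE, mE, eE⟩ := tLe_iff.1 hle
    obtain ⟨c, hc⟩ := exists_Rc hE
    obtain ⟨e, he⟩ := Code.exists_code.1 (Partrec.nat_iff.1 hr.partrec)
    have hev : ∀ n m, m ∈ e.eval n ↔ m = r n := by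
      intro n m
      rw [he]
      simp
    obtain ⟨ρ, b, ⟨h2, h2'⟩, h3, _⟩ := hstep (encode (c, e))
    have h5 : dc (encode (c, e)) = (c, e) := Denumerable.ofNat_encode _
    rw [h5] at h2 h2'
    simp only at h2 h2'
    have hρ : pre X ρ.length = ρ := hXp (encode (c, e) + 1) ρ (by
      rw [h3]; exact List.prefix_append _ _)
    rcases h2' with ⟨y, ⟨h6, h7⟩, h8⟩ | h6
    · exfalso
      simp only [hev] at h6
      have h9 : (fun n => Zo (r n)) y.1 = !y.2.2 := by
        rw [eE]
        refine ⟨ρ.length, ?_⟩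
        rw [hρ, hc]
        exact h7
      simp only at h9
      rw [← h6, h8] at h9
      simp at h9
    · set σ := s (encode (c, e)) with hσ
      refine computable_of_graph ?_
      have h7 : S1 fun x : ℕ × Bool => ∃ τ : List Bool, σ <+: τ ∧ Rc c τ x.1 x.2 := by
        refine S1.ex (p := fun (x : ℕ × Bool) (τ : List Bool) => σ <+: τ ∧ Rc c τ x.1 x.2)
          (S1.and (S1.of_prim (prim_prefix (Primrec.const σ) Primrec.snd)) ?_)
        exact s1_Rc.comp (f := fun z : (ℕ × Bool) × List Bool => (c, z.2, z.1.1, z.1.2))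
          ((Primrec.const c).pair (Primrec.snd.pair ((Primrec.fst.comp Primrec.fst).pair
            (Primrec.snd.comp Primrec.fst))))
      have key : ∀ n b, Zo (r n) = b → ∃ τ : List Bool, σ <+: τ ∧ Rc c τ n b := by
        intro n b h
        obtain ⟨k, hk⟩ := (eE n b).1 h
        refine ⟨pre X (max k σ.length), ?_, ?_⟩
        · have h8 := pre_prefix X (le_max_right k σ.length)
          rwa [hXpre] at h8
        · rw [← hc]
          exact mE _ _ _ _ (pre_prefix X (le_max_left _ _)) hk
      refine h7.of_eq fun x => ?_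
      constructor
      · rintro ⟨τ, h8, h9⟩
        by_contra hne
        obtain ⟨τ', h10, h11⟩ := key x.1 (Zo (r x.1)) rfl
        apply h6
        cases hx : x.2 with
        | false =>
          rw [hx] at h9 hne
          have h12 : Zo (r x.1) = true := by simpa using hne
          rw [h12] at h11
          exact ⟨(x.1, r x.1, τ, τ'), ⟨h8, h10⟩, (hev _ _).2 rfl, h9, h11⟩
        | true =>
          rw [hx] at h9 hne
          have h12 : Zo (r x.1) = false := by simpa using hne
          rw [h12] at h11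
          exact ⟨(x.1, r x.1, τ', τ), ⟨h10, h8⟩, (hev _ _).2 rfl, h11, h9⟩
      · intro h
        exact key _ _ h

end Pool.Agent.Helper39K9.TD
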