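import Pool.Agent.Helper39K9.TD.Truth

set_option autoImplicit false

namespace Pool.Agent.Helper39K9.TD

open Encodable
open Pool.Agent.Helper227
open Pool.Agent.H685R3

section

variable {fn rel : ℕ → Option ℕ} {e : ℕ × List ℕ → ℕ} {d : ℕ × List ℕ → Bool}

theorem atm_rel (v : List ℕ) (i : ℕ) (ks : List ℕ) :
    atm rel d (tabT fn e v (Nat.pair 0 (Nat.pair i (encode ks))))
      (Nat.pair 0 (Nat.pair i (encode ks))) =
    bif decide (rel i = some ks.length) && decide (∀ k ∈ ks, (evT fn e v k).1 = true) then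
      some (d (i, ks.map fun k => (evT fn e v k).2)) else none := by
  have hk : ∀ k ∈ ks, k < Nat.pair 0 (Nat.pair i (encode ks)) := fun k hk =>
    lt_of_lt_of_le (lt_encode_of_mem _ _ hk) ((Nat.right_le_pair _ _).trans (Nat.right_le_pair _ _))
  have h2 : ∀ k ∈ ks, (tabT fn e v (Nat.pair 0 (Nat.pair i (encode ks)))).getD k (false, 0) =
      evT fn e v k := fun k h => tabT_getD v (hk k h)
  unfold atm
  simp only [Nat.unpair_pair, decide_true, cond_true, dl_encode]
  have h3 : decide (∀ k ∈ ks, ((tabT fn e v (Nat.pair 0 (Nat.pair i (encode ks)))).getD k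
      (false, 0)).1 = true) = decide (∀ k ∈ ks, (evT fn e v k).1 = true) := by
    rw [decide_eq_decide]
    exact forall₂_congr fun k h => by rw [h2 k h]
  have h4 : (ks.map fun k => ((tabT fn e v (Nat.pair 0 (Nat.pair i (encode ks)))).getD k
      (false, 0)).2) = ks.map fun k => (evT fn e v k).2 :=
    List.map_congr_left fun k h => by rw [h2 k h]
  rw [h3, h4]

theorem atm_eq (v : List ℕ) (a b : ℕ) :
    atm rel d (tabT fn e v (Nat.pair 1 (Nat.pair a b))) (Nat.pair 1 (Nat.pair a b)) =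
    bif (evT fn e v a).1 && (evT fn e v b).1 then
      some (decide ((evT fn e v a).2 = (evT fn e v b).2)) else none := by
  have ha : a < Nat.pair 1 (Nat.pair a b) :=
    lt_of_le_of_lt (Nat.left_le_pair _ _) (lt_pair_succ 0 _)
  have hb : b < Nat.pair 1 (Nat.pair a b) :=
    lt_of_le_of_lt (Nat.right_le_pair _ _) (lt_pair_succ 0 _)
  unfold atm
  simp only [Nat.unpair_pair, one_ne_zero, decide_false, decide_true, cond_true, cond_false]
  rw [tabT_getD v ha, tabT_getD v hb]

theorem atm_none (l : List (Bool × ℕ)) {c : ℕ} (h : 2 ≤ c.unpair.1) : atm rel d l c = none := by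
  unfold atm
  have h0 : ¬ c.unpair.1 = 0 := by omega
  have h1 : ¬ c.unpair.1 = 1 := by omega
  rw [decide_eq_false h0, decide_eq_false h1]
  rfl

end

/-- the atomic truth function -/
def AtF (L : Sig) (d : ℕ × List ℕ → Bool) (e : ℕ × List ℕ → ℕ) (x : ℕ × List ℕ) : Option Bool :=
  atm L.rel d (tabT L.fn e x.2 x.1) x.1

theorem comp_aux {V W : Type} [Primcodable V] [Primcodable W] {tab : V → ℕ → W}
    {at' : W → ℕ → Option Bool} (h1 : Computable fun x : V × ℕ => tab x.1 x.2)
    (h2 : Computable fun x : W × ℕ => at' x.1 x.2) :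
    Computable fun x : ℕ × V => at' (tab x.2 x.1) x.1 := by
  have h3 : Computable fun x : ℕ × V => tab x.2 x.1 :=
    Computable.comp h1 (Computable.snd.pair Computable.fst)
  exact Computable.comp h2 (h3.pair Computable.fst)

theorem computable_AtF {L : Sig} (hL : L.IsComputable) {d : ℕ × List ℕ → Bool}
    {e : ℕ × List ℕ → ℕ} (hd : Computable d) (he : Computable e) : Computable (AtF L d e) := by
  exact comp_aux (computable_tabT hL.2 he) (computable_atm hL.1 hd)

section sem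

variable {L : Sig} {A : Str} {d : ℕ × List ℕ → Bool} {e : ℕ × List ℕ → ℕ} {D : ℕ → Bool}

theorem AtF_rel (hA : A.IsStr L)
    (hd : ∀ i xs, L.rel i = some xs.length → (∀ x ∈ xs, x ∈ A.dom) → (d (i, xs) = true ↔ A.R i xs))
    (he : ∀ i xs, L.fn i = some xs.length → (∀ x ∈ xs, x ∈ A.dom) → e (i, xs) = A.F i xs)
    {v : List ℕ} (hv : ∀ x ∈ v, x ∈ A.dom) (i k : ℕ) (ts : Fin k → Tm) :
    ((Fml.rel i k ts).Wf L v.length → ∃ b, AtF L d e ((Fml.rel i k ts).code, v) = some b ∧
      (b = true ↔ Sat A (Fml.rel i k ts) v)) ∧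
    (∀ b, AtF L d e ((Fml.rel i k ts).code, v) = some b → (Fml.rel i k ts).Wf L v.length) := by
  have h1 : AtF L d e ((Fml.rel i k ts).code, v) =
      bif decide (L.rel i = some (List.ofFn fun j => (ts j).code).length) &&
        decide (∀ k ∈ (List.ofFn fun j => (ts j).code), (evT L.fn e v k).1 = true) then
      some (d (i, (List.ofFn fun j => (ts j).code).map fun k => (evT L.fn e v k).2)) else none := by
    unfold AtF
    rw [Fml.code]
    exact atm_rel v i _
  have h2 := fun t : Tm => evT_spec hA he v hv t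
  have h3 : (L.rel i = some (List.ofFn fun j => (ts j).code).length ∧
      ∀ k ∈ (List.ofFn fun j => (ts j).code), (evT L.fn e v k).1 = true) ↔
      (Fml.rel i k ts).Wf L v.length := by
    simp only [Fml.Wf, List.length_ofFn, List.forall_mem_ofFn_iff]
    exact and_congr_right fun _ => forall_congr' fun j => (h2 (ts j)).1.symm
  rw [h1]
  constructor
  · intro hw
    obtain ⟨h4, h5⟩ := h3.2 hw
    rw [decide_eq_true h4, decide_eq_true h5]
    refine ⟨_, rfl, ?_⟩
    simp only [Fml.Wf] at hw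
    have h6 : (List.ofFn fun j => (ts j).code).map (fun k => (evT L.fn e v k).2) =
        List.ofFn fun j => (ts j).val A v := by
      rw [List.map_ofFn]
      congr 1
      funext j
      exact ((h2 (ts j)).2 (hw.2 j)).1
    have h7 : ∀ x ∈ List.ofFn (fun j => (ts j).val A v), x ∈ A.dom := by
      rw [List.forall_mem_ofFn_iff]
      exact fun j => ((h2 (ts j)).2 (hw.2 j)).2
    rw [h6]
    have h8 : L.rel i = some (List.ofFn fun j => (ts j).val A v).length := by
      rw [List.length_ofFn]; exact hw.1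
    exact hd i _ h8 h7
  · intro b hb
    apply h3.1
    by_contra hc
    rw [not_and_or] at hc
    rcases hc with hc | hc
    · rw [decide_eq_false hc] at hb
      cases hb
    · rw [decide_eq_false hc, Bool.and_false] at hb
      cases hb

theorem AtF_eq (hA : A.IsStr L)
    (he : ∀ i xs, L.fn i = some xs.length → (∀ x ∈ xs, x ∈ A.dom) → e (i, xs) = A.F i xs)
    {v : List ℕ} (hv : ∀ x ∈ v, x ∈ A.dom) (t s : Tm) :
    ((Fml.eq t s).Wf L v.length → ∃ b, AtF L d e ((Fml.eq t s).code, v) = some b ∧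
      (b = true ↔ Sat A (Fml.eq t s) v)) ∧
    (∀ b, AtF L d e ((Fml.eq t s).code, v) = some b → (Fml.eq t s).Wf L v.length) := by
  have h1 : AtF L d e ((Fml.eq t s).code, v) =
      bif (evT L.fn e v t.code).1 && (evT L.fn e v s.code).1 then
      some (decide ((evT L.fn e v t.code).2 = (evT L.fn e v s.code).2)) else none := by
    unfold AtF
    rw [Fml.code]
    exact atm_eq v _ _
  have h2 := fun t : Tm => evT_spec hA he v hv t
  rw [h1]
  simp only [Fml.Wf]
  constructor
  · rintro ⟨h3, h4⟩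
    rw [(h2 t).1.1 h3, (h2 s).1.1 h4]
    refine ⟨_, rfl, ?_⟩
    rw [((h2 t).2 h3).1, ((h2 s).2 h4).1]
    simp [Sat]
  · intro b hb
    rw [(h2 t).1, (h2 s).1]
    by_contra hc
    rw [not_and_or] at hc
    rcases hc with hc | hc
    · rw [Bool.not_eq_true] at hc
      rw [hc] at hb
      cases hb
    · rw [Bool.not_eq_true] at hc
      rw [hc, Bool.and_false] at hb
      cases hb

/-- The codes accepted by the atomic truth function. -/
theorem AtF_code {v : List ℕ} {c : ℕ} {b : Bool} (h : AtF L d e (c, v) = some b) :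
    (∃ i k ts, (Fml.rel i k ts).code = c) ∨ ∃ t s, (Fml.eq t s).code = c := by
  unfold AtF at h
  simp only at h
  obtain ⟨k, m, rfl⟩ : ∃ a b, c = Nat.pair a b := ⟨_, _, (Nat.pair_unpair c).symm⟩
  obtain ⟨i, n, rfl⟩ : ∃ a b, m = Nat.pair a b := ⟨_, _, (Nat.pair_unpair m).symm⟩
  match k with
  | 0 =>
    left
    rw [← encode_dl n, atm_rel] at h
    have h1 : ∀ k ∈ dl n, (evT L.fn e v k).1 = true := by
      by_contra hc
      rw [decide_eq_false hc, Bool.and_false] at h
      cases h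
    obtain ⟨ts, hts⟩ := exists_list fun k hk => evT_code v k (h1 k hk)
    refine ⟨i, _, ts, ?_⟩
    rw [Fml.code, hts, encode_dl]
  | 1 =>
    right
    rw [atm_eq] at h
    have h1 : (evT L.fn e v i).1 = true ∧ (evT L.fn e v n).1 = true := by
      by_contra hc
      rw [← Bool.and_eq_true, Bool.not_eq_true] at hc
      rw [hc] at h
      cases h
    obtain ⟨t, ht⟩ := evT_code v i h1.1
    obtain ⟨s, hs⟩ := evT_code v n h1.2
    refine ⟨t, s, ?_⟩
    rw [Fml.code, ht, hs]
  | k + 2 =>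
    rw [atm_none _ (by rw [Nat.unpair_pair]; omega)] at h
    cases h

/-- Soundness. -/
theorem sound (hA : A.IsStr L) (hD : ∀ x, D x = true ↔ x ∈ A.dom)
    (hd : ∀ i xs, L.rel i = some xs.length → (∀ x ∈ xs, x ∈ A.dom) → (d (i, xs) = true ↔ A.R i xs))
    (he : ∀ i xs, L.fn i = some xs.length → (∀ x ∈ xs, x ∈ A.dom) → e (i, xs) = A.F i xs) :
    ∀ (n b c : ℕ) (v : List ℕ), (∀ x ∈ v, x ∈ A.dom) →
      TT (AtF L d e) D n (encode (b, c, v)) = true →
      ∃ φ : Fml, φ.code = c ∧ φ.Wf L v.length ∧ ((b = 1 ∧ Sat A φ v) ∨ (b = 0 ∧ ¬ Sat A φ v)) := by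
  intro n
  induction n with
  | zero => intro b c v _ h; simp [TT] at h
  | succ n ih =>
    intro b c v hv h
    rw [TT_succ_encode] at h
    have hun : Nat.pair c.unpair.1 c.unpair.2 = c := Nat.pair_unpair c
    rcases h with (((⟨h1, h2⟩ | ⟨⟨h1, h2⟩, h3⟩) | (⟨⟨h1, h2⟩, h3⟩ | ⟨⟨h1, h2⟩, h3⟩) |
      ⟨⟨h1, h2⟩, a, ha, h3⟩) | ⟨⟨h1, h2⟩, h3⟩)
    · simp only at h1 h2
      have h4 : ∃ φ : Fml, φ.code = c ∧ φ.Wf L v.length ∧ (decide (b = 1) = true ↔ Sat A φ v) := by
        rcases AtF_code h2 with ⟨i, k, ts, rfl⟩ | ⟨t, s, rfl⟩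
        · have h5 := (AtF_rel hA hd he hv i k ts).2 _ h2
          obtain ⟨b', h6, h7⟩ := (AtF_rel hA hd he hv i k ts).1 h5
          rw [h2] at h6
          cases h6
          exact ⟨_, rfl, h5, h7⟩
        · have h5 := (AtF_eq hA he hv t s).2 _ h2
          obtain ⟨b', h6, h7⟩ := (AtF_eq (d := d) hA he hv t s).1 h5
          rw [h2] at h6
          cases h6
          exact ⟨_, rfl, h5, h7⟩
      obtain ⟨φ, h5, h6, h7⟩ := h4
      refine ⟨φ, h5, h6, ?_⟩
      rw [decide_eq_true_eq] at h7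
      by_cases hb : b = 1
      · exact Or.inl ⟨hb, h7.1 hb⟩
      · exact Or.inr ⟨by omega, fun h8 => hb (h7.2 h8)⟩
    · simp only at h1 h2 h3
      obtain ⟨φ, h4, h5, h6⟩ := ih _ _ _ hv h3
      refine ⟨.not φ, ?_, h5, ?_⟩
      · rw [Fml.code, h4, ← h2, hun]
      · simp only [Sat, not_not]
        rcases h6 with ⟨h6, h7⟩ | ⟨h6, h7⟩
        · exact Or.inr ⟨by omega, h7⟩
        · exact Or.inl ⟨by omega, h7⟩
    · simp only at h1 h2 h3
      obtain ⟨φ, h4, h5, h6⟩ := ih _ _ _ hv h3.1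
      obtain ⟨ψ, h4', h5', h6'⟩ := ih _ _ _ hv h3.2
      refine ⟨.and φ ψ, ?_, ⟨h5, h5'⟩, ?_⟩
      · rw [Fml.code, h4, h4', Nat.pair_unpair, ← h2, hun]
      · simp only [one_ne_zero, false_and, or_false, true_and] at h6 h6'
        exact Or.inl ⟨h1, h6, h6'⟩
    · simp only at h1 h2 h3
      have h7 : ∃ φ ψ : Fml, φ.code = c.unpair.2.unpair.1 ∧ ψ.code = c.unpair.2.unpair.2 ∧
          φ.Wf L v.length ∧ ψ.Wf L v.length ∧ ¬ (Sat A φ v ∧ Sat A ψ v) := by
        rcases h3 with ⟨h3, h3'⟩ | ⟨h3, h3'⟩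
        · obtain ⟨φ, h4, h5, h6⟩ := ih _ _ _ hv h3
          simp only [zero_ne_one, false_and, true_and, false_or] at h6
          rcases h3' with h3' | h3'
          · obtain ⟨ψ, h4', h5', h6'⟩ := ih _ _ _ hv h3'
            exact ⟨φ, ψ, h4, h4', h5, h5', fun h => h6 h.1⟩
          · obtain ⟨ψ, h4', h5', h6'⟩ := ih _ _ _ hv h3'
            exact ⟨φ, ψ, h4, h4', h5, h5', fun h => h6 h.1⟩
        · obtain ⟨φ, h4, h5, h6⟩ := ih _ _ _ hv h3
          obtain ⟨ψ, h4', h5', h6'⟩ := ih _ _ _ hv h3'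
          simp only [zero_ne_one, false_and, true_and, false_or] at h6'
          exact ⟨φ, ψ, h4, h4', h5, h5', fun h => h6' h.2⟩
      obtain ⟨φ, ψ, h4, h4', h5, h5', h6⟩ := h7
      refine ⟨.and φ ψ, ?_, ⟨h5, h5'⟩, Or.inr ⟨h1, h6⟩⟩
      rw [Fml.code, h4, h4', Nat.pair_unpair, ← h2, hun]
    · simp only at h1 h2 h3
      have hav : ∀ x ∈ a :: v, x ∈ A.dom := by
        intro x hx
        rcases List.mem_cons.1 hx with rfl | hx
        · exact (hD _).1 ha
        · exact hv x hx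
      obtain ⟨φ, h4, h5, h6⟩ := ih _ _ _ hav h3
      simp only [one_ne_zero, false_and, or_false, true_and] at h6
      refine ⟨.ex φ, ?_, by simpa [Fml.Wf] using h5, Or.inl ⟨h1, a, (hD a).1 ha, h6⟩⟩
      rw [Fml.code, h4, ← h2, hun]
    · simp only at h1 h2 h3
      unfold Fail at h3
      simp only [not_exists, not_and, not_not] at h3
      have hav : ∀ a ∈ A.dom, ∀ x ∈ a :: v, x ∈ A.dom := by
        intro a ha x hx
        rcases List.mem_cons.1 hx with rfl | hx
        · exact ha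
        · exact hv x hx
      obtain ⟨a0, ha0⟩ := hA.1
      obtain ⟨φ, h4, h5, h6⟩ := ih _ _ _ (hav a0 ha0) (h3 a0 ((hD a0).2 ha0))
      refine ⟨.ex φ, ?_, by simpa [Fml.Wf] using h5, Or.inr ⟨h1, ?_⟩⟩
      · rw [Fml.code, h4, ← h2, hun]
      · rintro ⟨a, ha, h7⟩
        obtain ⟨ψ, h4', h5', h6'⟩ := ih _ _ _ (hav a ha) (h3 a ((hD a).2 ha))
        rw [Fml.code_inj (h4'.trans h4.symm)] at h6'
        simp only [zero_ne_one, false_and, true_and, false_or] at h6'
        exact h6' h7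

/-- Completeness. -/
theorem complete (hA : A.IsStr L) (hD : ∀ x, D x = true ↔ x ∈ A.dom)
    (hd : ∀ i xs, L.rel i = some xs.length → (∀ x ∈ xs, x ∈ A.dom) → (d (i, xs) = true ↔ A.R i xs))
    (he : ∀ i xs, L.fn i = some xs.length → (∀ x ∈ xs, x ∈ A.dom) → e (i, xs) = A.F i xs) :
    ∀ (n : ℕ) (φ : Fml) (v : List ℕ), φ.code < n → (∀ x ∈ v, x ∈ A.dom) → φ.Wf L v.length →
      (Sat A φ v → TT (AtF L d e) D n (encode ((1, φ.code, v) : Qu)) = true) ∧
      (¬ Sat A φ v → TT (AtF L d e) D n (encode ((0, φ.code, v) : Qu)) = true) := by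
  intro n
  induction n with
  | zero => intro φ v h; omega
  | succ n ih =>
    intro φ v hn hv hw
    rw [TT_succ_encode, TT_succ_encode]
    cases φ with
    | rel i k ts =>
      obtain ⟨b, h1, h2⟩ := (AtF_rel hA hd he hv i k ts).1 hw
      constructor
      · intro h3
        refine Or.inl (Or.inl (Or.inl ⟨le_rfl, ?_⟩))
        rw [h1, h2.2 h3]
        rfl
      · intro h3
        refine Or.inl (Or.inl (Or.inl ⟨Nat.zero_le _, ?_⟩))
        rw [← h2, Bool.not_eq_true] at h3
        rw [h1, h3]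
        rfl
    | eq t s =>
      obtain ⟨b, h1, h2⟩ := (AtF_eq (d := d) hA he hv t s).1 hw
      constructor
      · intro h3
        refine Or.inl (Or.inl (Or.inl ⟨le_rfl, ?_⟩))
        rw [h1, h2.2 h3]
        rfl
      · intro h3
        refine Or.inl (Or.inl (Or.inl ⟨Nat.zero_le _, ?_⟩))
        rw [← h2, Bool.not_eq_true] at h3
        rw [h1, h3]
        rfl
    | not φ =>
      rw [Fml.code] at hn ⊢
      have hn' : φ.code < n := lt_of_lt_of_le (lt_pair_succ 1 _) (Nat.lt_succ_iff.1 hn)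
      obtain ⟨h1, h2⟩ := ih φ v hn' hv hw
      constructor
      · intro h3
        refine Or.inl (Or.inl (Or.inr ⟨⟨le_rfl, by simp⟩, ?_⟩))
        simpa using h2 h3
      · intro h3
        simp only [Sat, not_not] at h3
        refine Or.inl (Or.inl (Or.inr ⟨⟨Nat.zero_le _, by simp⟩, ?_⟩))
        simpa using h1 h3
    | and φ ψ =>
      rw [Fml.code] at hn ⊢
      have h0 : Nat.pair φ.code ψ.code < n :=
        lt_of_lt_of_le (lt_pair_succ 2 _) (Nat.lt_succ_iff.1 hn)
      obtain ⟨h1, h2⟩ := ih φ v (lt_of_le_of_lt (Nat.left_le_pair _ _) h0) hv hw.1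
      obtain ⟨h1', h2'⟩ := ih ψ v (lt_of_le_of_lt (Nat.right_le_pair _ _) h0) hv hw.2
      constructor
      · intro h3
        refine Or.inl (Or.inr (Or.inl (Or.inl ⟨⟨rfl, by simp⟩, ?_⟩)))
        simpa using ⟨h1 h3.1, h1' h3.2⟩
      · intro h3
        refine Or.inl (Or.inr (Or.inl (Or.inr ⟨⟨rfl, by simp⟩, ?_⟩)))
        simp only [Nat.unpair_pair]
        by_cases h4 : Sat A φ v
        · exact Or.inr ⟨h1 h4, h2' fun h5 => h3 ⟨h4, h5⟩⟩
        · refine Or.inl ⟨h2 h4, ?_⟩
          by_cases h5 : Sat A ψ v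
          · exact Or.inl (h1' h5)
          · exact Or.inr (h2' h5)
    | ex φ =>
      rw [Fml.code] at hn ⊢
      have hn' : φ.code < n := lt_of_lt_of_le (lt_pair_succ 3 _) (Nat.lt_succ_iff.1 hn)
      have hav : ∀ a ∈ A.dom, ∀ x ∈ a :: v, x ∈ A.dom := by
        intro a ha x hx
        rcases List.mem_cons.1 hx with rfl | hx
        · exact ha
        · exact hv x hx
      constructor
      · rintro ⟨a, ha, h3⟩
        refine Or.inl (Or.inr (Or.inr ⟨⟨rfl, by simp⟩, a, (hD a).2 ha, ?_⟩))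
        simpa using (ih φ (a :: v) hn' (hav a ha) hw).1 h3
      · intro h3
        refine Or.inr ⟨⟨rfl, by simp⟩, ?_⟩
        rintro ⟨a, ha, h4⟩
        apply h4
        have h5 : ¬ Sat A φ (a :: v) := fun h6 => h3 ⟨a, (hD a).1 ha, h6⟩
        simpa using (ih φ (a :: v) hn' (hav a ((hD a).1 ha)) hw).2 h5

/-- The theory of a computable structure is many-one reducible to the `ω`-jump of the empty set. -/
theorem Th_red (hL : L.IsComputable) (hA : A.IsStr L) (hc : A.IsComputable L) :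
    ∃ r : ℕ → ℕ, Computable r ∧ ∀ c, c ∈ codes (Th L A) ↔ om (fun _ => false) (r c) = true := by
  obtain ⟨⟨D, cD, hD⟩, ⟨d, cd, hd⟩, ⟨e, ce, he⟩⟩ := hc
  obtain ⟨r, hr, er⟩ := exists_red (computable_AtF hL cd ce) cD
  refine ⟨fun c => r (c + 1, (1, c, [])), ?_, fun c => ?_⟩
  · refine hr.comp (Primrec.to_comp ?_)
    exact Primrec.succ.pair ((Primrec.const 1).pair (Primrec.id.pair (Primrec.const [])))
  · rw [← er]
    constructor
    · rintro ⟨φ, ⟨h1, h2⟩, rfl⟩
      exact (complete hA hD hd he _ φ [] (Nat.lt_succ_self _) (by simp) h1).1 h2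
    · intro h
      obtain ⟨φ, h1, h2, h3⟩ := sound hA hD hd he _ _ _ [] (by simp) h
      simp only [one_ne_zero, false_and, or_false, true_and] at h3
      exact ⟨φ, ⟨h2, h3⟩, h1⟩

end sem

end Pool.Agent.Helper39K9.TD
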