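import Pool.Agent.Helper39K9.TD.Defs

set_option autoImplicit false

namespace Pool.Agent.Helper39K9.TD

open Encodable
open Pool.Agent.Helper227

theorem lt_encode_of_mem : ∀ (l : List ℕ) (k : ℕ), k ∈ l → k < encode l := by
  intro l
  induction l with
  | nil => intro k hk; simp at hk
  | cons a l ih =>
    intro k hk
    rw [Encodable.encode_list_cons]
    simp only [Encodable.encode_nat]
    rcases List.mem_cons.1 hk with rfl | h
    · exact Nat.lt_succ_of_le (Nat.left_le_pair _ _)
    · exact lt_trans (ih k h) (Nat.lt_succ_of_le (Nat.right_le_pair _ _))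

theorem lt_pair_succ (f n : ℕ) : n < Nat.pair (f + 1) n := by
  have h : ∀ m, n ≤ Nat.pair m n := fun m => Nat.right_le_pair _ _
  have h2 := Nat.add_le_pair (f + 1) n
  omega

theorem ofFn_code_inj {k k' : ℕ} {ts : Fin k → Tm} {ss : Fin k' → Tm}
    (h : ∀ j s, (ts j).code = s.code → ts j = s)
    (h2 : (List.ofFn fun j => (ts j).code) = List.ofFn fun j => (ss j).code) :
    ∃ e : k = k', ts = e ▸ ss := by
  have h3 : k = k' := by simpa using congrArg List.length h2
  subst h3
  refine ⟨rfl, ?_⟩
  have h4 := List.ofFn_injective h2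
  funext j
  exact h j (ss j) (congrFun h4 j)

theorem Tm.code_inj : ∀ {t s : Tm}, t.code = s.code → t = s := by
  intro t
  induction t with
  | var i =>
    intro s h
    cases s with
    | var j =>
      simp only [Tm.code, Nat.pair_eq_pair, true_and] at h
      rw [h]
    | app g k ss => simp [Tm.code] at h
  | app f k ts ih =>
    intro s h
    cases s with
    | var j => simp [Tm.code] at h
    | app g k' ss =>
      simp only [Tm.code, Nat.pair_eq_pair, add_left_inj] at h
      obtain ⟨rfl, h⟩ := h
      obtain ⟨rfl, rfl⟩ := ofFn_code_inj (fun j s => ih j) (encode_injective h)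
      rfl

theorem Fml.code_inj : ∀ {φ ψ : Fml}, φ.code = ψ.code → φ = ψ := by
  intro φ
  induction φ with
  | rel i k ts =>
    intro ψ h
    cases ψ <;> simp only [Fml.code, Nat.pair_eq_pair] at h
    · obtain ⟨_, rfl, h⟩ := h
      obtain ⟨rfl, rfl⟩ := ofFn_code_inj (fun j s => Tm.code_inj) (encode_injective h)
      rfl
    all_goals omega
  | eq t s =>
    intro ψ h
    cases ψ <;> simp only [Fml.code, Nat.pair_eq_pair] at h
    case eq t' s' => rw [Tm.code_inj h.2.1, Tm.code_inj h.2.2]
    all_goals omega
  | not φ ih =>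
    intro ψ h
    cases ψ <;> simp only [Fml.code, Nat.pair_eq_pair] at h
    case not ψ => rw [ih h.2]
    all_goals omega
  | and φ φ' ih ih' =>
    intro ψ h
    cases ψ <;> simp only [Fml.code, Nat.pair_eq_pair] at h
    case and ψ ψ' => rw [ih h.2.1, ih' h.2.2]
    all_goals omega
  | ex φ ih =>
    intro ψ h
    cases ψ <;> simp only [Fml.code, Nat.pair_eq_pair] at h
    case ex ψ => rw [ih h.2]
    all_goals omega

/-- list of the numbers coded by a number -/
def dl (n : ℕ) : List ℕ := Denumerable.ofNat (List ℕ) n

theorem primrec_dl : Primrec dl := Primrec.ofNat (List ℕ)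

theorem dl_encode (l : List ℕ) : dl (encode l) = l := Denumerable.ofNat_encode l

theorem encode_dl (n : ℕ) : encode (dl n) = n := Denumerable.encode_ofNat n

/-- One step of the evaluation of terms: `l` is the table of (well-formedness, value) of the
codes `< l.length`. -/
def stepT (fn : ℕ → Option ℕ) (e : ℕ × List ℕ → ℕ) (v : List ℕ) (l : List (Bool × ℕ)) : Bool × ℕ :=
  bif decide (l.length.unpair.1 = 0) then
    (decide (l.length.unpair.2 < v.length), v.getD l.length.unpair.2 0)
  else (decide (fn (l.length.unpair.1 - 1) = some (dl l.length.unpair.2).length) &&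
      decide (∀ k ∈ dl l.length.unpair.2, (l.getD k (false, 0)).1 = true),
    e (l.length.unpair.1 - 1, (dl l.length.unpair.2).map fun k => (l.getD k (false, 0)).2))

/-- The table. -/
def tabT (fn : ℕ → Option ℕ) (e : ℕ × List ℕ → ℕ) (v : List ℕ) : ℕ → List (Bool × ℕ)
  | 0 => []
  | n + 1 => tabT fn e v n ++ [stepT fn e v (tabT fn e v n)]

/-- Well-formedness and value of the term with code `c`. -/
def evT (fn : ℕ → Option ℕ) (e : ℕ × List ℕ → ℕ) (v : List ℕ) (c : ℕ) : Bool × ℕ :=
  stepT fn e v (tabT fn e v c)

section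

variable {fn : ℕ → Option ℕ} {e : ℕ × List ℕ → ℕ}

theorem tabT_eq (v : List ℕ) (n : ℕ) : tabT fn e v n = (List.range n).map (evT fn e v) := by
  induction n with
  | zero => rfl
  | succ n ih => rw [tabT, List.range_succ, List.map_append, ← ih]; rfl

theorem tabT_length (v : List ℕ) (n : ℕ) : (tabT fn e v n).length = n := by simp [tabT_eq]

theorem tabT_getD (v : List ℕ) {n k : ℕ} (h : k < n) :
    (tabT fn e v n).getD k (false, 0) = evT fn e v k := by
  rw [tabT_eq, List.getD_eq_getElem _ _ (by simpa using h)]
  simp

theorem evT_var (v : List ℕ) (i : ℕ) :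
    evT fn e v (Nat.pair 0 i) = (decide (i < v.length), v.getD i 0) := by
  unfold evT stepT
  rw [tabT_length]
  simp

theorem evT_app (v : List ℕ) (f : ℕ) (ks : List ℕ) :
    evT fn e v (Nat.pair (f + 1) (encode ks)) =
      (decide (fn f = some ks.length) && decide (∀ k ∈ ks, (evT fn e v k).1 = true),
        e (f, ks.map fun k => (evT fn e v k).2)) := by
  have hk : ∀ k ∈ ks, k < Nat.pair (f + 1) (encode ks) := fun k hk =>
    lt_trans (lt_encode_of_mem _ _ hk) (lt_pair_succ _ _)
  have h2 : ∀ k ∈ ks, (tabT fn e v (Nat.pair (f + 1) (encode ks))).getD k (false, 0) =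
      evT fn e v k := fun k h => tabT_getD v (hk k h)
  conv_lhs => unfold evT
  unfold stepT
  rw [tabT_length]
  simp only [Nat.unpair_pair, Nat.add_one_ne_zero, decide_false, cond_false, dl_encode,
    Nat.add_sub_cancel]
  congr 1
  · congr 1
    rw [decide_eq_decide]
    exact forall₂_congr fun k h => by rw [h2 k h]
  · congr 2
    exact List.map_congr_left fun k h => by rw [h2 k h]

end

theorem primrec_all : Primrec fun x : List (Bool × ℕ) × List ℕ =>
    decide (∀ k ∈ x.2, (x.1.getD k (false, 0)).1 = true) := by
  have h : PrimrecPred fun x : List (Bool × ℕ) × List ℕ =>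
      ∀ k ∈ x.2, (x.1.getD k (false, 0)).1 = true := by
    refine PP.all_mem (p := fun (x : List (Bool × ℕ) × List ℕ) k =>
      (x.1.getD k (false, 0)).1 = true) ?_ Primrec.snd
    exact Primrec.eq.comp (Primrec.fst.comp ((Primrec.list_getD (false, 0)).comp
      (Primrec.fst.comp Primrec.fst) Primrec.snd)) (Primrec.const true)
  exact h.decide

theorem computable_stepT {fn : ℕ → Option ℕ} {e : ℕ × List ℕ → ℕ} (hf : Computable fn)
    (he : Computable e) :
    Computable fun x : List ℕ × List (Bool × ℕ) => stepT fn e x.1 x.2 := by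
  have hl : Computable fun x : List ℕ × List (Bool × ℕ) => x.2.length :=
    (Primrec.list_length.comp Primrec.snd).to_comp
  have h1 : Computable fun x : List ℕ × List (Bool × ℕ) => x.2.length.unpair.1 :=
    (Primrec.fst.comp (Primrec.unpair.comp (Primrec.list_length.comp Primrec.snd))).to_comp
  have h2p : Primrec fun x : List ℕ × List (Bool × ℕ) => x.2.length.unpair.2 :=
    Primrec.snd.comp (Primrec.unpair.comp (Primrec.list_length.comp Primrec.snd))
  have h3 : Computable fun x : List ℕ × List (Bool × ℕ) => x.2.length.unpair.1 - 1 :=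
    (Primrec.nat_sub.comp (Primrec.fst.comp (Primrec.unpair.comp
      (Primrec.list_length.comp Primrec.snd))) (Primrec.const 1)).to_comp
  have hdl : Primrec fun x : List ℕ × List (Bool × ℕ) => dl x.2.length.unpair.2 :=
    primrec_dl.comp h2p
  unfold stepT
  refine Computable.cond ?_ ?_ ?_
  · exact Primrec.eq.decide.to_comp.comp h1 (Computable.const 0)
  · refine Primrec.to_comp (Primrec.pair ?_ ?_)
    · exact (Primrec.nat_lt.comp h2p (Primrec.list_length.comp Primrec.fst)).decide
    · exact (Primrec.list_getD 0).comp Primrec.fst h2p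
  · refine Computable.pair ?_ ?_
    · refine (Primrec.and.to_comp).comp ?_ ?_
      · exact Primrec.eq.decide.to_comp.comp (hf.comp h3)
          (Computable.option_some.comp (Primrec.list_length.comp hdl).to_comp)
      · exact (primrec_all.comp (Primrec.snd.pair hdl)).to_comp
    · refine he.comp (h3.pair (Primrec.to_comp ?_))
      refine Primrec.list_map hdl (g := fun x k => (x.2.getD k (false, 0)).2) ?_
      exact Primrec.snd.comp ((Primrec.list_getD (false, 0)).comp
        (Primrec.snd.comp Primrec.fst) Primrec.snd)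

section
variable {V W : Type} [Primcodable V] [Primcodable W]
/-- the table, for an abstract step function -/
def tabG (st : V → List W → W) (v : V) : ℕ → List W
  | 0 => []
  | n + 1 => tabG st v n ++ [st v (tabG st v n)]

theorem computable_tabG0 {st : V → List W → W}
    (hs : Computable fun x : V × List W => st x.1 x.2) :
    Computable fun x : V × ℕ => tabG st x.1 x.2 := by
  have h5 : Computable fun y : (V × ℕ) × ℕ × List W => y.2.2 :=
    (Primrec.snd.comp Primrec.snd).to_comp
  have h6 : Computable fun y : (V × ℕ) × ℕ × List W => (y.1.1, y.2.2) :=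
    ((Primrec.fst.comp Primrec.fst).pair (Primrec.snd.comp Primrec.snd)).to_comp
  have h7 : Computable fun y : (V × ℕ) × ℕ × List W =>
      st y.1.1 y.2.2 := Computable.comp hs h6
  have h8 : Computable₂ fun (x : V × ℕ) (p : ℕ × List W) =>
      p.2 ++ [st x.1 p.2] := Computable.list_concat.comp h5 h7
  have h4 : Computable fun x : V × ℕ => (Nat.rec (motive := fun _ => List W) []
      (fun _ l => l ++ [st x.1 l]) x.2 : List W) :=
    Computable.nat_rec (f := fun x : V × ℕ => x.2) (g := fun _ => [])
      Computable.snd (Computable.const []) h8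
  refine h4.of_eq fun x => ?_
  obtain ⟨v, n⟩ := x
  induction n with
  | zero => rfl
  | succ n ih => simp only at ih ⊢; rw [tabG, ← ih]

theorem computable_tabG {st : V → List W → W}
    (hs : Computable fun x : V × List W => st x.1 x.2) :
    Computable fun x : V × ℕ => st x.1 (tabG st x.1 x.2) :=
  Computable.comp hs (Computable.fst.pair (computable_tabG0 hs))
end

theorem computable_evT {fn : ℕ → Option ℕ} {e : ℕ × List ℕ → ℕ} (hf : Computable fn)
    (he : Computable e) : Computable fun x : List ℕ × ℕ => evT fn e x.1 x.2 := by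
  refine (computable_tabG (computable_stepT hf he)).of_eq fun x => ?_
  have h : ∀ n, tabG (stepT fn e) x.1 n = tabT fn e x.1 n := by
    intro n
    induction n with
    | zero => rfl
    | succ n ih => rw [tabG, tabT, ih]
  simp only [h]
  rfl

/-- The evaluation is correct. -/
theorem evT_spec {L : Sig} {A : Str} (hA : A.IsStr L) {e : ℕ × List ℕ → ℕ}
    (he : ∀ i xs, L.fn i = some xs.length → (∀ x ∈ xs, x ∈ A.dom) → e (i, xs) = A.F i xs)
    (v : List ℕ) (hv : ∀ x ∈ v, x ∈ A.dom) : ∀ t : Tm,
    (t.Wf L v.length ↔ (evT L.fn e v t.code).1 = true) ∧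
    (t.Wf L v.length → (evT L.fn e v t.code).2 = t.val A v ∧ t.val A v ∈ A.dom) := by
  intro t
  induction t with
  | var i =>
    rw [Tm.code, evT_var]
    refine ⟨by simp [Tm.Wf], fun h => ?_⟩
    simp only [Tm.Wf] at h
    simp only [Tm.val, true_and]
    rw [List.getD_eq_getElem _ _ h]
    exact hv _ (List.getElem_mem h)
  | app f k ts ih =>
    rw [Tm.code, evT_app]
    constructor
    · simp only [Tm.Wf, Bool.and_eq_true, decide_eq_true_eq, List.length_ofFn,
        List.forall_mem_ofFn_iff]
      exact and_congr_right fun _ => forall_congr' fun j => (ih j).1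
    · intro hw
      simp only [Tm.Wf] at hw
      have h5 : (List.ofFn fun j => (ts j).code).map (fun k => (evT L.fn e v k).2) =
          List.ofFn fun j => (ts j).val A v := by
        rw [List.map_ofFn]
        congr 1
        funext j
        exact ((ih j).2 (hw.2 j)).1
      have h6 : ∀ x ∈ List.ofFn (fun j => (ts j).val A v), x ∈ A.dom := by
        rw [List.forall_mem_ofFn_iff]
        exact fun j => ((ih j).2 (hw.2 j)).2
      have h7 : L.fn f = some (List.ofFn fun j => (ts j).val A v).length := by
        rw [List.length_ofFn]; exact hw.1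
      simp only [Tm.val]
      rw [h5, he f _ h7 h6]
      exact ⟨rfl, hA.2 f _ h7 h6⟩

theorem exists_list {ks : List ℕ} (h : ∀ k ∈ ks, ∃ t : Tm, t.code = k) :
    ∃ ts : Fin ks.length → Tm, (List.ofFn fun j => (ts j).code) = ks := by
  choose ts hts using fun j : Fin ks.length => h (ks.get j) (List.get_mem ks j)
  refine ⟨ts, ?_⟩
  conv_rhs => rw [← List.ofFn_get ks]
  congr 1
  funext j
  exact hts j

/-- Only codes of terms are accepted. -/
theorem evT_code {fn : ℕ → Option ℕ} {e : ℕ × List ℕ → ℕ} (v : List ℕ) : ∀ n : ℕ,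
    (evT fn e v n).1 = true → ∃ t : Tm, t.code = n := by
  intro n
  induction n using Nat.strong_induction_on with
  | _ n ih =>
    intro hn
    obtain ⟨a, b, rfl⟩ : ∃ a b, n = Nat.pair a b := ⟨_, _, (Nat.pair_unpair n).symm⟩
    cases a with
    | zero => exact ⟨.var b, by rw [Tm.code]⟩
    | succ f =>
      rw [← encode_dl b, evT_app] at hn
      simp only [Bool.and_eq_true, decide_eq_true_eq] at hn
      have hk : ∀ k ∈ dl b, k < Nat.pair (f + 1) b := by
        intro k hk
        have := lt_encode_of_mem _ _ hk
        rw [encode_dl] at this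
        exact lt_trans this (lt_pair_succ _ _)
      obtain ⟨ts, hts⟩ := exists_list fun k hk' => ih k (hk k hk') (hn.2 k hk')
      refine ⟨.app f _ ts, ?_⟩
      rw [Tm.code, hts, encode_dl]

end Pool.Agent.Helper39K9.TD
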