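import Pool.Agent.Helper39K9.TD.Term

set_option autoImplicit false

namespace Pool.Agent.Helper39K9.TD

open Encodable
open Pool.Agent.Helper227
open Pool.Agent.H685R3

/-- Truth value of the atomic formula with code `c` (`none` if `c` is not the code of an atomic
formula), given the table `l` of the values of the terms. -/
def atm (rel : ℕ → Option ℕ) (d : ℕ × List ℕ → Bool) (l : List (Bool × ℕ)) (c : ℕ) :
    Option Bool :=
  bif decide (c.unpair.1 = 0) then
    (bif decide (rel c.unpair.2.unpair.1 = some (dl c.unpair.2.unpair.2).length) &&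
        decide (∀ k ∈ dl c.unpair.2.unpair.2, (l.getD k (false, 0)).1 = true) then
      some (d (c.unpair.2.unpair.1, (dl c.unpair.2.unpair.2).map fun k => (l.getD k (false, 0)).2))
    else none)
  else (bif decide (c.unpair.1 = 1) then
    (bif (l.getD c.unpair.2.unpair.1 (false, 0)).1 && (l.getD c.unpair.2.unpair.2 (false, 0)).1 then
      some (decide ((l.getD c.unpair.2.unpair.1 (false, 0)).2 =
        (l.getD c.unpair.2.unpair.2 (false, 0)).2))
    else none)
  else none)

theorem computable_atm {rel : ℕ → Option ℕ} {d : ℕ × List ℕ → Bool} (hr : Computable rel)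
    (hd : Computable d) :
    Computable fun x : List (Bool × ℕ) × ℕ => atm rel d x.1 x.2 := by
  have p1 : Primrec fun x : List (Bool × ℕ) × ℕ => x.2.unpair.1 :=
    Primrec.fst.comp (Primrec.unpair.comp Primrec.snd)
  have p2 : Primrec fun x : List (Bool × ℕ) × ℕ => x.2.unpair.2.unpair.1 :=
    Primrec.fst.comp (Primrec.unpair.comp (Primrec.snd.comp (Primrec.unpair.comp Primrec.snd)))
  have p3 : Primrec fun x : List (Bool × ℕ) × ℕ => x.2.unpair.2.unpair.2 :=
    Primrec.snd.comp (Primrec.unpair.comp (Primrec.snd.comp (Primrec.unpair.comp Primrec.snd)))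
  have p4 : Primrec fun x : List (Bool × ℕ) × ℕ => dl x.2.unpair.2.unpair.2 := primrec_dl.comp p3
  unfold atm
  refine Computable.cond ?_ (Computable.cond ?_ ?_ (Computable.const none))
    (Primrec.to_comp (Primrec.cond ?_ (Primrec.cond ?_ ?_ (Primrec.const none))
      (Primrec.const none)))
  · exact (Primrec.eq.comp p1 (Primrec.const 0)).decide.to_comp
  · refine (Primrec.and.to_comp).comp ?_ ?_
    · exact Primrec.eq.decide.to_comp.comp (hr.comp p2.to_comp)
        (Primrec.option_some.comp (Primrec.list_length.comp p4)).to_comp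
    · exact (primrec_all.comp (Primrec.fst.pair p4)).to_comp
  · refine Computable.option_some.comp (hd.comp (p2.to_comp.pair (Primrec.to_comp ?_)))
    refine Primrec.list_map p4 (g := fun x k => (x.1.getD k (false, 0)).2) ?_
    exact Primrec.snd.comp ((Primrec.list_getD (false, 0)).comp
      (Primrec.fst.comp Primrec.fst) Primrec.snd)
  · exact (Primrec.eq.comp p1 (Primrec.const 1)).decide
  · refine Primrec.and.comp ?_ ?_
    · exact Primrec.fst.comp ((Primrec.list_getD (false, 0)).comp Primrec.fst p2)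
    · exact Primrec.fst.comp ((Primrec.list_getD (false, 0)).comp Primrec.fst p3)
  · refine Primrec.option_some.comp (Primrec.eq.comp ?_ ?_).decide
    · exact Primrec.snd.comp ((Primrec.list_getD (false, 0)).comp Primrec.fst p2)
    · exact Primrec.snd.comp ((Primrec.list_getD (false, 0)).comp Primrec.fst p3)

theorem computable_tabT {fn : ℕ → Option ℕ} {e : ℕ × List ℕ → ℕ} (hf : Computable fn)
    (he : Computable e) : Computable fun x : List ℕ × ℕ => tabT fn e x.1 x.2 := by
  refine (computable_tabG0 (computable_stepT hf he)).of_eq fun x => ?_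
  have h : ∀ n, tabG (stepT fn e) x.1 n = tabT fn e x.1 n := by
    intro n
    induction n with
    | zero => rfl
    | succ n ih => rw [tabG, tabT, ih]
  exact h _

/-- The type of the questions: `(b, c, v)` asks whether `c` is the code of a formula which has the
truth value `b` under the assignment `v`. -/
abbrev Qu := ℕ × ℕ × List ℕ

section ops

variable (At : ℕ × List ℕ → Option Bool) (D : ℕ → Bool) (T : Qu → Prop)

/-- the positive part of the step of the recursion -/
def Pos (x : Qu) : Prop :=
  ((x.1 ≤ 1 ∧ At x.2 = some (decide (x.1 = 1))) ∨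
    ((x.1 ≤ 1 ∧ x.2.1.unpair.1 = 2) ∧ T (1 - x.1, x.2.1.unpair.2, x.2.2))) ∨
  (((x.1 = 1 ∧ x.2.1.unpair.1 = 3) ∧ (T (1, x.2.1.unpair.2.unpair.1, x.2.2) ∧
      T (1, x.2.1.unpair.2.unpair.2, x.2.2))) ∨
    ((x.1 = 0 ∧ x.2.1.unpair.1 = 3) ∧ ((T (0, x.2.1.unpair.2.unpair.1, x.2.2) ∧
        (T (1, x.2.1.unpair.2.unpair.2, x.2.2) ∨ T (0, x.2.1.unpair.2.unpair.2, x.2.2))) ∨
      (T (1, x.2.1.unpair.2.unpair.1, x.2.2) ∧ T (0, x.2.1.unpair.2.unpair.2, x.2.2))))) ∨
  ((x.1 = 1 ∧ x.2.1.unpair.1 = 4) ∧ ∃ a, D a = true ∧ T (1, x.2.1.unpair.2, a :: x.2.2))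

/-- the failure of a universal statement -/
def Fail (x : Qu) : Prop := ∃ a, D a = true ∧ ¬ T (0, x.2.1.unpair.2, a :: x.2.2)

/-- one step of the recursion -/
def Op (x : Qu) : Prop :=
  Pos At D T x ∨ ((x.1 = 0 ∧ x.2.1.unpair.1 = 4) ∧ ¬ Fail D T x)

end ops

open Classical in
/-- The questions which are answered positively by formulas of height `< n`, as an oracle. -/
noncomputable def TT (At : ℕ × List ℕ → Option Bool) (D : ℕ → Bool) : ℕ → ℕ → Bool
  | 0 => fun _ => false
  | n + 1 => fun m => decide (Op At D (fun y => TT At D n (encode y) = true)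
      (Denumerable.ofNat Qu m))

theorem TT_succ {At : ℕ × List ℕ → Option Bool} {D : ℕ → Bool} {n m : ℕ} :
    TT At D (n + 1) m = true ↔
      Op At D (fun y => TT At D n (encode y) = true) (Denumerable.ofNat Qu m) := by
  simp [TT]

theorem TT_succ_encode {At : ℕ × List ℕ → Option Bool} {D : ℕ → Bool} {n : ℕ} {x : Qu} :
    TT At D (n + 1) (encode x) = true ↔ Op At D (fun y => TT At D n (encode y) = true) x := by
  rw [TT_succ, Denumerable.ofNat_encode]

section prims

theorem qb : Primrec fun x : Qu => x.1 := Primrec.fst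
theorem qc : Primrec fun x : Qu => x.2.1 := Primrec.fst.comp Primrec.snd
theorem qv : Primrec fun x : Qu => x.2.2 := Primrec.snd.comp Primrec.snd
theorem qc1 : Primrec fun x : Qu => x.2.1.unpair.1 := Primrec.fst.comp (Primrec.unpair.comp qc)
theorem qc2 : Primrec fun x : Qu => x.2.1.unpair.2 := Primrec.snd.comp (Primrec.unpair.comp qc)
theorem qc21 : Primrec fun x : Qu => x.2.1.unpair.2.unpair.1 :=
  Primrec.fst.comp (Primrec.unpair.comp qc2)
theorem qc22 : Primrec fun x : Qu => x.2.1.unpair.2.unpair.2 :=
  Primrec.snd.comp (Primrec.unpair.comp qc2)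

theorem us_q (b : Bool) {α : Type*} [Primcodable α] {f : α → Qu} (hf : Primrec f) :
    US fun B a => B (encode (f a)) = b :=
  US.query.comp (f := fun a => (encode (f a), b)) ((Primrec.encode.comp hf).pair (Primrec.const b))

end prims

section step

variable {At : ℕ × List ℕ → Option Bool} {D : ℕ → Bool}

theorem s1_D (hD : Computable D) (b : Bool) : S1 fun a => D a = b :=
  (S1.of_prim (Primrec.eq.comp Primrec.id (Primrec.const b))).comp_computable hD

theorem us_Pos (hA : Computable At) (hD : Computable D) :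
    US fun B x => Pos At D (fun y => B (encode y) = true) x := by
  have hb1 : PrimrecPred fun x : Qu => x.1 = 1 := Primrec.eq.comp qb (Primrec.const 1)
  have hb0 : PrimrecPred fun x : Qu => x.1 = 0 := Primrec.eq.comp qb (Primrec.const 0)
  have hb : PrimrecPred fun x : Qu => x.1 ≤ 1 := Primrec.nat_le.comp qb (Primrec.const 1)
  have hc : ∀ k : ℕ, PrimrecPred fun x : Qu => x.2.1.unpair.1 = k := fun k =>
    Primrec.eq.comp qc1 (Primrec.const k)
  have hq1 : ∀ b : ℕ, US fun B (x : Qu) => B (encode (b, x.2.1.unpair.2.unpair.1, x.2.2)) = true :=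
    fun b => us_q true ((Primrec.const b).pair (qc21.pair qv))
  have hq2 : ∀ b : ℕ, US fun B (x : Qu) => B (encode (b, x.2.1.unpair.2.unpair.2, x.2.2)) = true :=
    fun b => us_q true ((Primrec.const b).pair (qc22.pair qv))
  have hat : S1 fun x : Qu => At x.2 = some (decide (x.1 = 1)) := by
    have h1 : PrimrecPred fun y : Option Bool × Option Bool => y.1 = y.2 :=
      Primrec.eq.comp Primrec.fst Primrec.snd
    exact (S1.of_prim h1).comp_computable (f := fun x : Qu => (At x.2, some (decide (x.1 = 1))))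
      ((hA.comp Computable.snd).pair (Primrec.option_some.comp hb1.decide).to_comp)
  refine US.or (US.or ?_ ?_) (US.or (US.or ?_ ?_) ?_)
  · exact US.of_s1 ((S1.of_prim hb).and hat)
  · refine US.and (US.of_prim (hb.and (hc 2))) (us_q true ?_)
    exact (Primrec.nat_sub.comp (Primrec.const 1) qb).pair (qc2.pair qv)
  · exact US.and (US.of_prim (hb1.and (hc 3))) (US.and (hq1 1) (hq2 1))
  · exact US.and (US.of_prim (hb0.and (hc 3)))
      (US.or (US.and (hq1 0) (US.or (hq2 1) (hq2 0))) (US.and (hq1 1) (hq2 0)))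
  · refine US.and (US.of_prim (hb1.and (hc 4))) ?_
    refine US.ex (p := fun B (x : Qu) a => D a = true ∧
      B (encode ((1, x.2.1.unpair.2, a :: x.2.2) : Qu)) = true) (US.and (US.of_s1 ?_) ?_)
    · exact (s1_D hD true).comp (f := fun y : Qu × ℕ => y.2) Primrec.snd
    · exact us_q true ((Primrec.const 1).pair ((qc2.comp Primrec.fst).pair
        (Primrec.list_cons.comp Primrec.snd (qv.comp Primrec.fst))))

theorem us_Fail (hD : Computable D) :
    US fun B x => Fail D (fun y => B (encode y) = true) x := by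
  have h : US fun B (x : Qu) => ∃ a, D a = true ∧
      B (encode ((0, x.2.1.unpair.2, a :: x.2.2) : Qu)) = false := by
    refine US.ex (p := fun B (x : Qu) a => D a = true ∧
      B (encode ((0, x.2.1.unpair.2, a :: x.2.2) : Qu)) = false) (US.and (US.of_s1 ?_) ?_)
    · exact (s1_D hD true).comp (f := fun y : Qu × ℕ => y.2) Primrec.snd
    · exact us_q false ((Primrec.const 0).pair ((qc2.comp Primrec.fst).pair
        (Primrec.list_cons.comp Primrec.snd (qv.comp Primrec.fst))))
  refine h.of_eq fun B x => ?_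
  simp only [Fail, Bool.not_eq_true]

theorem exists_g (hA : Computable At) (hD : Computable D) : ∃ g : Qu → ℕ, Primrec g ∧
    ∀ (T : ℕ → Bool) (x : Qu), Op At D (fun y => T (encode y) = true) x ↔
      jump (jump T) (g x) = true := by
  obtain ⟨f1, h1, e1⟩ := (us_Pos hA hD).to_jump
  obtain ⟨f2, h2, e2⟩ := (us_Fail hD).to_jump
  have h3 : US fun B (x : Qu) => B (f1 x) = true ∨
      ((x.1 = 0 ∧ x.2.1.unpair.1 = 4) ∧ B (f2 x) = false) := by
    refine US.or ?_ (US.and (US.of_prim (PrimrecPred.and ?_ ?_)) ?_)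
    · exact US.query.comp (f := fun x => (f1 x, true)) (h1.pair (Primrec.const true))
    · exact Primrec.eq.comp qb (Primrec.const 0)
    · exact Primrec.eq.comp qc1 (Primrec.const 4)
    · exact US.query.comp (f := fun x => (f2 x, false)) (h2.pair (Primrec.const false))
  obtain ⟨g, hg, eg⟩ := h3.to_jump
  refine ⟨g, hg, fun T x => ?_⟩
  rw [← eg]
  unfold Op
  rw [e1, e2, Bool.not_eq_true]

open Nat.Partrec (Code) in
/-- The sets `TT n` are uniformly many-one reducible to the iterated jumps. -/
theorem exists_red (hA : Computable At) (hD : Computable D) : ∃ r : ℕ × Qu → ℕ, Computable r ∧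
    ∀ (n : ℕ) (x : Qu), TT At D n (encode x) = om (fun _ => false) (r (n, x)) := by
  obtain ⟨g, hg, eg⟩ := exists_g hA hD
  obtain ⟨gj, hgj, egj⟩ := exists_gj
  obtain ⟨s, hs, es⟩ := exists_smn hgj
  have h1 : Primrec fun x : Code × ℕ => gj (s x.1, g (Denumerable.ofNat Qu x.2)) :=
    hgj.comp ((hs.comp Primrec.fst).pair (hg.comp ((Primrec.ofNat Qu).comp Primrec.snd)))
  obtain ⟨S, hS, eS⟩ := exists_smn h1
  obtain ⟨c0, hc0⟩ := Code.exists_code.1 (Nat.Partrec.of_primrec (Primrec.nat_iff.1
    (Primrec.id (α := ℕ))))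
  have key : ∀ n i, ∃ m, m ∈ (S^[n] c0).eval i ∧
      TT At D n i = jn (fun _ => false) (2 * n) m := by
    intro n
    induction n with
    | zero =>
      intro i
      refine ⟨i, ?_, rfl⟩
      rw [Function.iterate_zero, id, hc0]
      simp
    | succ n ih =>
      intro i
      have h2 := egj _ _ _ ih
      have h3 : ∀ i, ∃ m, m ∈ (s (S^[n] c0)).eval i ∧ jump (TT At D n) i =
          jump (jn (fun _ => false) (2 * n)) m := fun i => ⟨_, es _ i, h2 i⟩
      have h4 := egj _ _ _ h3
      refine ⟨gj (s (S^[n] c0), g (Denumerable.ofNat Qu i)), ?_, ?_⟩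
      · rw [Function.iterate_succ_apply']
        exact eS (S^[n] c0) i
      · have h5 : 2 * (n + 1) = 2 * n + 1 + 1 := by ring
        rw [h5]
        show TT At D (n + 1) i = jump (jump (jn (fun _ => false) (2 * n))) _
        rw [← h4]
        rw [Bool.eq_iff_iff, TT_succ]
        exact eg (TT At D n) (Denumerable.ofNat Qu i)
  choose m hm em using fun (x : ℕ × Qu) => key x.1 (encode x.2)
  refine ⟨fun x => Nat.pair (2 * x.1) (m x), ?_, fun n x => ?_⟩
  · refine (Primrec₂.natPair.to_comp).comp ((Primrec.nat_mul.comp (Primrec.const 2)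
      Primrec.fst).to_comp) ?_
    have h2 : Partrec fun x : ℕ × Qu => (S^[x.1] c0).eval (encode x.2) := by
      refine Code.eval_part.comp (Primrec.to_comp ?_) (Primrec.encode.comp Primrec.snd).to_comp
      exact Primrec.nat_iterate (f := fun x : ℕ × Qu => x.1) (g := fun _ => c0)
        (h := fun _ c => S c) Primrec.fst (Primrec.const c0) (hS.comp Primrec.snd)
    exact h2.of_eq_tot hm
  · rw [om_pair]
    exact em (n, x)

end step

end Pool.Agent.Helper39K9.TD
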